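import Pool.Agent.P.MP_417dd2_co.H.Thin

/-!
Orders three and four, finite checks: an irreducible pattern that realises `x ^ m` and `(x - 1) ^ m` has at
least `2 m` nonzero entries.
-/

open Polynomial Finset

namespace Pool.Agent.P.MP_417dd2_co.H

/-- A signed monomial in the entries of a matrix of order `m`. -/
abbrev Mon (m : ℕ) := Bool × List (Fin m × Fin m)

/-- The sum of the principal minors of order 1. -/
def E1 : List (Mon 4) :=
  [(true, [(0, 0)]), (true, [(1, 1)]), (true, [(2, 2)]), (true, [(3, 3)])]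

/-- The sum of the principal minors of order 2. -/
def E2 : List (Mon 4) :=
  [(true, [(0, 0), (1, 1)]), (true, [(0, 0), (2, 2)]), (true, [(0, 0), (3, 3)]),
   (true, [(1, 1), (2, 2)]), (true, [(1, 1), (3, 3)]), (true, [(2, 2), (3, 3)]),
   (false, [(0, 1), (1, 0)]), (false, [(0, 2), (2, 0)]), (false, [(0, 3), (3, 0)]),
   (false, [(1, 2), (2, 1)]), (false, [(1, 3), (3, 1)]), (false, [(2, 3), (3, 2)])]

/-- The sum of the principal minors of order 3. -/
def E3 : List (Mon 4) :=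
  [(true, [(0, 0), (1, 1), (2, 2)]), (true, [(0, 0), (1, 1), (3, 3)]),
   (true, [(0, 0), (2, 2), (3, 3)]), (true, [(1, 1), (2, 2), (3, 3)]),
   (false, [(0, 0), (1, 2), (2, 1)]), (false, [(0, 0), (1, 3), (3, 1)]),
   (false, [(0, 0), (2, 3), (3, 2)]), (false, [(1, 1), (0, 2), (2, 0)]),
   (false, [(1, 1), (0, 3), (3, 0)]), (false, [(1, 1), (2, 3), (3, 2)]),
   (false, [(2, 2), (0, 1), (1, 0)]), (false, [(2, 2), (0, 3), (3, 0)]),
   (false, [(2, 2), (1, 3), (3, 1)]), (false, [(3, 3), (0, 1), (1, 0)]),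
   (false, [(3, 3), (0, 2), (2, 0)]), (false, [(3, 3), (1, 2), (2, 1)]),
   (true, [(0, 1), (1, 2), (2, 0)]), (true, [(0, 2), (2, 1), (1, 0)]),
   (true, [(0, 1), (1, 3), (3, 0)]), (true, [(0, 3), (3, 1), (1, 0)]),
   (true, [(0, 2), (2, 3), (3, 0)]), (true, [(0, 3), (3, 2), (2, 0)]),
   (true, [(1, 2), (2, 3), (3, 1)]), (true, [(1, 3), (3, 2), (2, 1)])]

/-- The sum of the principal minors of order 4. -/
def E4 : List (Mon 4) :=
  [(true, [(0, 0), (1, 1), (2, 2), (3, 3)]), (false, [(0, 0), (1, 1), (2, 3), (3, 2)]),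
   (false, [(0, 0), (1, 2), (2, 1), (3, 3)]), (true, [(0, 0), (1, 2), (2, 3), (3, 1)]),
   (true, [(0, 0), (1, 3), (2, 1), (3, 2)]), (false, [(0, 0), (1, 3), (2, 2), (3, 1)]),
   (false, [(0, 1), (1, 0), (2, 2), (3, 3)]), (true, [(0, 1), (1, 0), (2, 3), (3, 2)]),
   (true, [(0, 1), (1, 2), (2, 0), (3, 3)]), (false, [(0, 1), (1, 2), (2, 3), (3, 0)]),
   (false, [(0, 1), (1, 3), (2, 0), (3, 2)]), (true, [(0, 1), (1, 3), (2, 2), (3, 0)]),
   (true, [(0, 2), (1, 0), (2, 1), (3, 3)]), (false, [(0, 2), (1, 0), (2, 3), (3, 1)]),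
   (false, [(0, 2), (1, 1), (2, 0), (3, 3)]), (true, [(0, 2), (1, 1), (2, 3), (3, 0)]),
   (true, [(0, 2), (1, 3), (2, 0), (3, 1)]), (false, [(0, 2), (1, 3), (2, 1), (3, 0)]),
   (false, [(0, 3), (1, 0), (2, 1), (3, 2)]), (true, [(0, 3), (1, 0), (2, 2), (3, 1)]),
   (true, [(0, 3), (1, 1), (2, 0), (3, 2)]), (false, [(0, 3), (1, 1), (2, 2), (3, 0)]),
   (false, [(0, 3), (1, 2), (2, 0), (3, 1)]), (true, [(0, 3), (1, 2), (2, 1), (3, 0)])]

/-- The nonempty proper vertex sets. -/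
def cuts : List (List (Fin 4)) :=
  [[0], [1], [2], [3], [0, 1], [0, 2], [0, 3], [1, 2], [1, 3], [2, 3], [0, 1, 2], [0, 1, 3],
   [0, 2, 3], [1, 2, 3]]

/-- The splittings into two pairs. -/
def pairs : List (Fin 4 × Fin 4 × Fin 4 × Fin 4) :=
  [(2, 3, 0, 1), (1, 3, 0, 2), (1, 2, 0, 3), (0, 3, 1, 2), (0, 2, 1, 3), (0, 1, 2, 3)]

/-- The value of a signed monomial. -/
def mval {m : ℕ} (A : Matrix (Fin m) (Fin m) ℝ) (u : Mon m) : ℝ :=
  (if u.1 then 1 else -1) * (u.2.map fun q => A q.1 q.2).prod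

/-- The value of a list of signed monomials. -/
def val {m : ℕ} (A : Matrix (Fin m) (Fin m) ℝ) (L : List (Mon m)) : ℝ := (L.map (mval A)).sum

/-- The monomials supported by the pattern. -/
def live {m : ℕ} (Z : Fin m → Fin m → Bool) (L : List (Mon m)) : List (Mon m) :=
  L.filter fun u => u.2.all fun q => Z q.1 q.2

/-- The check carried out on all patterns with at most seven nonzero entries. -/
def chk (Z : Fin 4 → Fin 4 → Bool) : Bool :=
  (cuts.any fun T => ([0, 1, 2, 3] : List (Fin 4)).all fun i => T.contains i ||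
      T.all fun j => !Z i j) ||
    ([E1, E2, E3, E4].any fun L => decide ((live Z L).length ≤ 1)) ||
    pairs.any fun r =>
      live Z E1 == [(true, [(r.2.2.1, r.2.2.1)]), (true, [(r.2.2.2, r.2.2.2)])] &&
      live Z E2 == [(true, [(r.2.2.1, r.2.2.1), (r.2.2.2, r.2.2.2)]),
        (false, [(r.1, r.2.1), (r.2.1, r.1)])] &&
      live Z E3 == [(false, [(r.2.2.1, r.2.2.1), (r.1, r.2.1), (r.2.1, r.1)]),
        (false, [(r.2.2.2, r.2.2.2), (r.1, r.2.1), (r.2.1, r.1)])]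

/-- A pattern from its sixteen entries. -/
def zf (b0 b1 b2 b3 b4 b5 b6 b7 b8 b9 b10 b11 b12 b13 b14 b15 : Bool) (i j : Fin 4) : Bool :=
  match i.val, j.val with
  | 0, 0 => b0
  | 0, 1 => b1
  | 0, 2 => b2
  | 0, _ => b3
  | 1, 0 => b4
  | 1, 1 => b5
  | 1, 2 => b6
  | 1, _ => b7
  | 2, 0 => b8
  | 2, 1 => b9
  | 2, 2 => b10
  | 2, _ => b11
  | _, 0 => b12
  | _, 1 => b13
  | _, 2 => b14
  | _, _ => b15

lemma brute : ∀ b0 b1 b2 b3 b4 b5 b6 b7 b8 b9 b10 b11 b12 b13 b14 b15 : Bool,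
    b0.toNat + b1.toNat + b2.toNat + b3.toNat + b4.toNat + b5.toNat + b6.toNat + b7.toNat
      + b8.toNat + b9.toNat + b10.toNat + b11.toNat + b12.toNat + b13.toNat + b14.toNat + b15.toNat ≤ 7 →
    chk (zf b0 b1 b2 b3 b4 b5 b6 b7 b8 b9 b10 b11 b12 b13 b14 b15) = true := by
  decide +kernel

/-- The trace in order three. -/
def F1 : List (Mon 3) := [(true, [(0, 0)]), (true, [(1, 1)]), (true, [(2, 2)])]

/-- The sum of the principal minors of order two in order three. -/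
def F2 : List (Mon 3) :=
  [(true, [(0, 0), (1, 1)]), (true, [(0, 0), (2, 2)]), (true, [(1, 1), (2, 2)]),
   (false, [(0, 1), (1, 0)]), (false, [(0, 2), (2, 0)]), (false, [(1, 2), (2, 1)])]

/-- The nonempty proper vertex sets in order three. -/
def cuts3 : List (List (Fin 3)) := [[0], [1], [2], [0, 1], [0, 2], [1, 2]]

/-- The check in order three. -/
def chk3 (Z : Fin 3 → Fin 3 → Bool) : Bool :=
  (cuts3.any fun T => ([0, 1, 2] : List (Fin 3)).all fun i => T.contains i ||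
      T.all fun j => !Z i j) ||
    [F1, F2].any fun L => decide ((live Z L).length ≤ 1)

/-- A pattern from its nine entries. -/
def zf3 (b0 b1 b2 b3 b4 b5 b6 b7 b8 : Bool) (i j : Fin 3) : Bool :=
  match i.val, j.val with
  | 0, 0 => b0
  | 0, 1 => b1
  | 0, _ => b2
  | 1, 0 => b3
  | 1, 1 => b4
  | 1, _ => b5
  | _, 0 => b6
  | _, 1 => b7
  | _, _ => b8

lemma brute3 : ∀ b0 b1 b2 b3 b4 b5 b6 b7 b8 : Bool,
    b0.toNat + b1.toNat + b2.toNat + b3.toNat + b4.toNat + b5.toNat + b6.toNat + b7.toNat + b8.toNat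
      ≤ 5 → chk3 (zf3 b0 b1 b2 b3 b4 b5 b6 b7 b8) = true := by
  decide +kernel

end Pool.Agent.P.MP_417dd2_co.H
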