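import Pool.Agent.P.MP_417dd2_co.H.Brute

/-! Orders one to four. -/

open Polynomial Finset

namespace Pool.Agent.P.MP_417dd2_co.H

section

variable {m : ℕ} {A : Matrix (Fin m) (Fin m) ℝ} {Z : Fin m → Fin m → Bool}

lemma val_live (hA : ∀ i j, (A i j ≠ 0 ↔ Z i j = true)) (L : List (Mon m)) :
    val A L = val A (live Z L) := by
  induction L with
  | nil => rfl
  | cons u L ih =>
    unfold val live at *
    rw [List.filter_cons]
    split_ifs with h
    · simp only [List.map_cons, List.sum_cons, ih]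
    · have : mval A u = 0 := by
        simp only [List.all_eq_true, not_forall] at h
        obtain ⟨q, hq, h⟩ := h
        have h0 : A q.1 q.2 = 0 := by
          by_contra h1
          exact h ((hA _ _).1 h1)
        exact mul_eq_zero_of_right _ (List.prod_eq_zero (List.mem_map.2 ⟨q, hq, h0⟩))
      simp only [List.map_cons, List.sum_cons, ih, this, zero_add]

lemma val_ne (hA : ∀ i j, (A i j ≠ 0 ↔ Z i j = true)) {L : List (Mon m)} {u : Mon m}
    (h : live Z L = [u]) : val A L ≠ 0 := by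
  rw [val_live hA, h]
  have hu : u ∈ live Z L := by simp [h]
  have h1 := (List.mem_filter.1 hu).2
  simp only [List.all_eq_true] at h1
  simp only [val, List.map_cons, List.map_nil, List.sum_cons, List.sum_nil, add_zero, mval]
  refine mul_ne_zero (by split_ifs <;> norm_num) (List.prod_ne_zero fun h0 => ?_)
  obtain ⟨q, hq, h2⟩ := List.mem_map.1 h0
  exact (hA _ _).2 (h1 q hq) h2

lemma not_short {B : Matrix (Fin m) (Fin m) ℝ} (hA : ∀ i j, (A i j ≠ 0 ↔ Z i j = true))
    (hB : ∀ i j, (B i j ≠ 0 ↔ Z i j = true)) {L : List (Mon m)} (h0 : val A L = 0)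
    (h1 : val B L ≠ 0) : ¬ (live Z L).length ≤ 1 := by
  intro h
  match hl : live Z L, h with
  | [], _ => exact h1 (by rw [val_live hB, hl]; rfl)
  | [u], _ => exact val_ne hA hl h0

lemma not_cut (hZ : Irr Z) {T U : List (Fin m)} (hU : ∀ i, i ∈ U) (h1 : T.toFinset.Nonempty)
    (h2 : T.toFinset ≠ univ) :
    ¬ (U.all fun i => T.contains i || T.all fun j => !Z i j) = true := by
  intro h
  obtain ⟨i, hi, j, hj, hij⟩ := hZ _ h1 h2
  have h3 := List.all_eq_true.1 h i (hU i)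
  simp only [Bool.or_eq_true, List.contains_iff_mem, List.all_eq_true] at h3
  rcases h3 with h3 | h3
  · exact hi (List.mem_toFinset.2 h3)
  · have := h3 j (List.mem_toFinset.1 hj)
    simp [hij] at this

end

lemma eval_four (A : Matrix (Fin 4) (Fin 4) ℝ) (t : ℝ) : A.charpoly.eval t =
    t ^ 4 - val A E1 * t ^ 3 + val A E2 * t ^ 2 - val A E3 * t + val A E4 := by
  rw [Matrix.eval_charpoly]
  simp [Matrix.det_succ_row_zero, Fin.sum_univ_succ, Fin.succAbove, val, mval, E1, E2, E3, E4,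
    Matrix.diagonal_apply]
  ring

lemma coeff_four {A : Matrix (Fin 4) (Fin 4) ℝ} {c : ℝ} (h : A.charpoly = (X - C c) ^ 4) : val A E1 = 4 * c ∧
    val A E2 = 6 * c ^ 2 ∧ val A E3 = 4 * c ^ 3 ∧ val A E4 = c ^ 4 := by
  have h0 := eval_four A 0
  have h1 := eval_four A 1
  have h2 := eval_four A (-1)
  have h3 := eval_four A 2
  simp only [h, eval_pow, eval_sub, eval_X, eval_C] at h0 h1 h2 h3
  refine ⟨?_, ?_, ?_, ?_⟩
  · linear_combination (1 / 2) * h0 - (1 / 2) * h1 - (1 / 6) * h2 + (1 / 6) * h3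
  · linear_combination h0 - (1 / 2) * h1 - (1 / 2) * h2
  · linear_combination -(1 / 2) * h0 + h1 - (1 / 3) * h2 - (1 / 6) * h3
  · linear_combination -h0

lemma four {Z : Fin 4 → Fin 4 → Bool} (hZ : Irr Z) (h0 : (X - C 0) ^ 4 ∈ Pol Z)
    (h1 : (X - C 1) ^ 4 ∈ Pol Z) : 8 ≤ nz Z := by
  by_contra hlt
  have e : Z = zf (Z 0 0) (Z 0 1) (Z 0 2) (Z 0 3) (Z 1 0) (Z 1 1) (Z 1 2) (Z 1 3) (Z 2 0) (Z 2 1)
      (Z 2 2) (Z 2 3) (Z 3 0) (Z 3 1) (Z 3 2) (Z 3 3) := by
    funext i j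
    fin_cases i <;> fin_cases j <;> rfl
  have hb : ∀ b : Bool, (if b = true then 1 else 0) = b.toNat := by decide
  have hc : chk Z = true := by
    rw [e]
    apply brute
    simp only [nz, card_filter, Fintype.sum_prod_type, Fin.sum_univ_four, hb] at hlt
    omega
  obtain ⟨A, hA, hA0⟩ := h0
  obtain ⟨B, hB, hB1⟩ := h1
  obtain ⟨a1, a2, a3, a4⟩ := coeff_four hA0
  obtain ⟨b1, b2, b3, b4⟩ := coeff_four hB1
  simp only [chk, Bool.or_eq_true, List.any_eq_true] at hc
  rcases hc with (⟨T, hT, h⟩ | ⟨L, hL, h⟩) | ⟨r, -, h⟩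
  · have h2 : ∀ T ∈ cuts, T.toFinset.Nonempty ∧ T.toFinset ≠ univ := by decide
    exact not_cut hZ (by decide) (h2 T hT).1 (h2 T hT).2 h
  · have h2 : val A L = 0 ∧ val B L ≠ 0 := by
      simp only [List.mem_cons, List.not_mem_nil, or_false] at hL
      rcases hL with rfl | rfl | rfl | rfl <;> simp [*]
    exact not_short hA hB h2.1 h2.2 (of_decide_eq_true h)
  · simp only [Bool.and_eq_true, beq_iff_eq] at h
    obtain ⟨⟨e1, e2⟩, e3⟩ := h
    rw [val_live hB, e1] at b1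
    rw [val_live hB, e2] at b2
    rw [val_live hB, e3] at b3
    simp [val, mval] at b1 b2 b3
    set a := B r.2.2.1 r.2.2.1
    set b := B r.2.2.2 r.2.2.2
    set c := B r.1 r.2.1 * B r.2.1 r.1
    have hc : c = -1 := by
      have : c * (a + b) = -4 := by linarith
      rw [b1] at this
      linarith
    nlinarith [sq_nonneg (a - b)]

lemma three {Z : Fin 3 → Fin 3 → Bool} (hZ : Irr Z) (h0 : (X - C 0) ^ 3 ∈ Pol Z)
    (h1 : (X - C 1) ^ 3 ∈ Pol Z) : 6 ≤ nz Z := by
  have co : ∀ (A : Matrix (Fin 3) (Fin 3) ℝ) (c : ℝ), A.charpoly = (X - C c) ^ 3 →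
      val A F1 = 3 * c ∧ val A F2 = 3 * c ^ 2 := by
    intro A c h
    have h0 := A.eval_charpoly 0
    have h1 := A.eval_charpoly 1
    have h2 := A.eval_charpoly (-1)
    simp only [h, eval_pow, eval_sub, eval_X, eval_C, Matrix.det_fin_three] at h0 h1 h2
    simp at h0 h1 h2
    simp [val, mval, F1, F2]
    constructor
    · linear_combination (1 / 2) * h1 + (1 / 2) * h2 - h0
    · linear_combination (1 / 2) * h2 - (1 / 2) * h1
  by_contra hlt
  have e : Z = zf3 (Z 0 0) (Z 0 1) (Z 0 2) (Z 1 0) (Z 1 1) (Z 1 2) (Z 2 0) (Z 2 1) (Z 2 2) := by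
    funext i j
    fin_cases i <;> fin_cases j <;> rfl
  have hb : ∀ b : Bool, (if b = true then 1 else 0) = b.toNat := by decide
  have hc : chk3 Z = true := by
    rw [e]
    apply brute3
    simp only [nz, card_filter, Fintype.sum_prod_type, Fin.sum_univ_three, hb] at hlt
    omega
  obtain ⟨A, hA, hA0⟩ := h0
  obtain ⟨B, hB, hB1⟩ := h1
  obtain ⟨a1, a2⟩ := co A 0 hA0
  obtain ⟨b1, b2⟩ := co B 1 hB1
  simp only [chk3, Bool.or_eq_true, List.any_eq_true] at hc
  rcases hc with ⟨T, hT, h⟩ | ⟨L, hL, h⟩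
  · have h2 : ∀ T ∈ cuts3, T.toFinset.Nonempty ∧ T.toFinset ≠ univ := by decide
    exact not_cut hZ (by decide) (h2 T hT).1 (h2 T hT).2 h
  · have h2 : val A L = 0 ∧ val B L ≠ 0 := by
      simp only [List.mem_cons, List.not_mem_nil, or_false] at hL
      rcases hL with rfl | rfl <;> simp [*]
    exact not_short hA hB h2.1 h2.2 (of_decide_eq_true h)

lemma one {Z : Fin 1 → Fin 1 → Bool} (h0 : (X - C 0) ^ 1 ∈ Pol Z) (h1 : (X - C 1) ^ 1 ∈ Pol Z) :
    False := by
  obtain ⟨A, hA, hA0⟩ := h0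
  obtain ⟨B, hB, hB1⟩ := h1
  have a := A.eval_charpoly 0
  have b := B.eval_charpoly 0
  simp [hA0] at a
  simp [hB1] at b
  exact (hA 0 0).2 ((hB 0 0).1 (by rw [← b]; norm_num)) a

lemma two {Z : Fin 2 → Fin 2 → Bool} (hZ : Irr Z) (h0 : (X - C 0) ^ 2 ∈ Pol Z)
    (h1 : (X - C 1) ^ 2 ∈ Pol Z) : 4 ≤ nz Z := by
  have tr : ∀ (A : Matrix (Fin 2) (Fin 2) ℝ) (c : ℝ), A.charpoly = (X - C c) ^ 2 →
      A 0 0 + A 1 1 = 2 * c := by
    intro A c h
    have h1 := A.eval_charpoly 1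
    have h2 := A.eval_charpoly (-1)
    simp [h, Matrix.det_fin_two] at h1 h2
    linear_combination (1 / 2) * h1 - (1 / 2) * h2
  obtain ⟨A, hA, hA0⟩ := h0
  obtain ⟨B, hB, hB1⟩ := h1
  have a := tr A 0 hA0
  have b := tr B 1 hB1
  have h10 : Z 1 0 = true := by
    obtain ⟨i, hi, j, hj, h⟩ := hZ {0} (by decide) (by decide)
    fin_cases i <;> fin_cases j <;> simp_all
  have h01 : Z 0 1 = true := by
    obtain ⟨i, hi, j, hj, h⟩ := hZ {1} (by decide) (by decide)
    fin_cases i <;> fin_cases j <;> simp_all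
  have h2 : Z 0 0 = true ↔ Z 1 1 = true := by
    rw [← hA, ← hA]
    constructor <;> intro h h' <;> apply h <;> linarith
  have h3 : Z 0 0 = true := by
    by_contra h
    have h4 : B 0 0 = 0 := by
      by_contra h5
      exact h ((hB _ _).1 h5)
    have h5 : B 1 1 = 0 := by
      by_contra h5
      exact h (h2.2 ((hB _ _).1 h5))
    linarith
  simp only [nz, card_filter, Fintype.sum_prod_type, Fin.sum_univ_two, h10, h01, h3, h2.1 h3]
  norm_num

end Pool.Agent.P.MP_417dd2_co.H
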