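import Pool.Agent.P.MP_417dd2_co.H.Four

/-! The lower bound for the number of nonzero entries. -/

open Polynomial Finset

namespace Pool.Agent.P.MP_417dd2_co.H

lemma roots_pos : ∀ (n : ℕ) (p : ℝ[X]), p.Monic → p.natDegree = n → Odd n → 0 < p.roots.card := by
  intro n
  induction n using Nat.strong_induction_on with
  | _ n ih =>
    intro p hp hn ho
    rcases quad_or_root hp (by rw [hn]; exact ho.pos) with ⟨a, b, -, q, rfl⟩ | ⟨r, q, hq, rfl, -⟩
    · have hq : q.Monic := (quad_monic a b).of_mul_monic_left hp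
      rw [(quad_monic a b).natDegree_mul hq, quad_natDegree] at hn
      have := ih q.natDegree (by omega) q hq rfl (by
        obtain ⟨k, hk⟩ := ho
        exact ⟨k - 1, by omega⟩)
      rw [roots_mul hp.ne_zero, Multiset.card_add]
      omega
    · rw [roots_mul hp.ne_zero, roots_X_sub_C]
      simp

section

variable {ι : Type} [Fintype ι] [DecidableEq ι]

lemma Pol.monic {Z : ι → ι → Bool} {p : ℝ[X]} (h : p ∈ Pol Z) :
    p.Monic ∧ p.natDegree = Fintype.card ι := by
  obtain ⟨A, -, rfl⟩ := h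
  exact ⟨A.charpoly_monic, A.charpoly_natDegree_eq_dim⟩

lemma split {Z : ι → ι → Bool} {T : ι → Prop} [DecidablePred T]
    (hT : ∀ i, ¬ T i → ∀ j, T j → Z i j ≠ true) {p : ℝ[X]} (h : p ∈ Pol Z) :
    ∃ a ∈ Pol fun i j : {i // T i} => Z i j, ∃ b ∈ Pol fun i j : {i // ¬ T i} => Z i j,
      p = a * b := by
  obtain ⟨A, hA, rfl⟩ := h
  refine ⟨_, ⟨A.toSquareBlockProp T, fun i j => hA _ _, rfl⟩,
    _, ⟨A.toSquareBlockProp (¬ T ·), fun i j => hA _ _, rfl⟩, ?_⟩
  have e : ∀ (q : ι → Prop) [DecidablePred q], A.charmatrix.toSquareBlockProp q =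
      (A.toSquareBlockProp q).charmatrix := by
    intro q _
    ext i j
    by_cases h : i = j
    · subst h
      simp [Matrix.toSquareBlockProp_def]
    · have : i.1 ≠ j.1 := fun h' => h (Subtype.ext h')
      simp [Matrix.toSquareBlockProp_def, Matrix.charmatrix_apply_ne _ _ _ h,
        Matrix.charmatrix_apply_ne _ _ _ this]
  unfold Matrix.charpoly
  rw [Matrix.twoBlockTriangular_det _ T, e, e]
  intro i hi j hj
  have h0 : A i j = 0 := by
    by_contra h
    exact hT i hi j hj ((hA i j).1 h)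
  rw [Matrix.charmatrix_apply_ne _ _ _ (fun h : i = j => hi (h ▸ hj)), h0]
  simp

omit [DecidableEq ι] in
lemma nz_eq (Z : ι → ι → Bool) : nz Z = ∑ i, ∑ j, if Z i j = true then 1 else 0 := by
  rw [nz, card_filter, Fintype.sum_prod_type]

omit [DecidableEq ι] in
lemma nz_split (Z : ι → ι → Bool) (T : ι → Prop) [DecidablePred T] :
    (nz fun i j : {i // T i} => Z i j) + (nz fun i j : {i // ¬ T i} => Z i j) ≤ nz Z := by
  simp only [nz_eq]
  rw [← Fintype.sum_subtype_add_sum_subtype T]
  refine add_le_add (sum_le_sum fun i _ => ?_) (sum_le_sum fun i _ => ?_)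
  · rw [← Fintype.sum_subtype_add_sum_subtype T fun j => if Z i j = true then 1 else 0]
    exact Nat.le_add_right _ _
  · rw [← Fintype.sum_subtype_add_sum_subtype T fun j => if Z i j = true then 1 else 0]
    exact Nat.le_add_left _ _

lemma transport {m : ℕ} (e : ι ≃ Fin m) (Z : ι → ι → Bool) :
    (Irr Z → Irr fun i j => Z (e.symm i) (e.symm j)) ∧
    (Pol Z ⊆ Pol fun i j => Z (e.symm i) (e.symm j)) ∧
    (nz fun i j => Z (e.symm i) (e.symm j)) = nz Z := by
  refine ⟨fun h T h1 h2 => ?_, ?_, ?_⟩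
  · obtain ⟨i, hi, j, hj, hij⟩ := h (T.map e.symm.toEmbedding) (by simpa using h1) (by
      intro h3
      apply h2
      rw [eq_univ_iff_forall] at h3 ⊢
      intro x
      simpa using h3 (e.symm x))
    exact ⟨e i, by simpa using hi, e j, by simpa using hj, by simpa using hij⟩
  · rintro p ⟨A, hA, rfl⟩
    exact ⟨Matrix.reindex e e A, fun i j => hA _ _, Matrix.charpoly_reindex e A⟩
  · simp only [nz_eq]
    rw [← e.symm.sum_comp]
    exact sum_congr rfl fun i _ =>
      e.symm.sum_comp fun j => if Z (e.symm i) j = true then 1 else 0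

end

lemma eq_pow_of_dvd {c : ℝ} {a : ℝ[X]} {n : ℕ} (ha : a.Monic) (h : a ∣ (X - C c) ^ n) :
    a = (X - C c) ^ a.natDegree := by
  obtain ⟨i, -, hi⟩ := (dvd_prime_pow (prime_X_sub_C c) n).1 h
  have := eq_of_monic_of_associated ha ((monic_X_sub_C c).pow i) hi
  rw [this]
  simp

theorem lower : ∀ (m : ℕ) (ι : Type) [Fintype ι] [DecidableEq ι], Fintype.card ι = m →
    ∀ Z : ι → ι → Bool, (∀ c : ℝ, (X - C c) ^ m ∈ Pol Z) → ¬ Thin (Pol Z) m →
      ∀ p ∈ Pol Z, 11 * m ≤ 6 * nz Z + p.roots.card := by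
  intro m
  induction m using Nat.strong_induction_on with
  | _ m ih =>
    intro ι _ _ hm Z hc ht p hp
    by_cases hZ : Irr Z
    · rcases Nat.eq_zero_or_pos m with h0 | h0
      · omega
      have h1 : 2 * m ≤ nz Z + 1 := by
        by_contra h
        exact ht (hm ▸ thin_irr hZ (by omega) (by omega))
      by_cases h6 : 6 ≤ m
      · omega
      obtain ⟨t1, t2, t3⟩ := transport (Fintype.equivFinOfCardEq hm) Z
      obtain rfl | rfl | rfl | rfl | rfl : m = 1 ∨ m = 2 ∨ m = 3 ∨ m = 4 ∨ m = 5 := by omega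
      · exact (one (t2 (hc 0)) (t2 (hc 1))).elim
      · have := two (t1 hZ) (t2 (hc 0)) (t2 (hc 1))
        omega
      · have := three (t1 hZ) (t2 (hc 0)) (t2 (hc 1))
        omega
      · have := four (t1 hZ) (t2 (hc 0)) (t2 (hc 1))
        omega
      · have := roots_pos 5 p (Pol.monic hp).1 ((Pol.monic hp).2.trans hm) (by decide)
        omega
    · unfold Irr at hZ
      push Not at hZ
      obtain ⟨T, _, k, c1, c3, c4, hT⟩ : ∃ (T : ι → Prop) (_ : DecidablePred T) (k : ℕ),
          Fintype.card {i // T i} = k ∧ 0 < k ∧ k < m ∧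
          ∀ i, ¬ T i → ∀ j, T j → Z i j ≠ true := by
        obtain ⟨T, ⟨x, hx⟩, h2, hT⟩ := hZ
        obtain ⟨y, hy⟩ : ∃ y, y ∉ T := by
          by_contra h
          exact h2 (eq_univ_iff_forall.2 (by simpa using h))
        refine ⟨(· ∈ T), inferInstance, T.card, by simp, card_pos.2 ⟨x, hx⟩,
          hm ▸ card_lt_univ_of_notMem hy, hT⟩
      have c2 : Fintype.card {i // ¬ T i} = m - k := by
        rw [Fintype.card_subtype_compl, hm, c1]
      obtain ⟨a, ha, b, hb, rfl⟩ := split hT hp
      have i1 := ih _ c4 _ c1 _ (fun c => by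
        obtain ⟨a, ha, b, -, h⟩ := split hT (hc c)
        have := eq_pow_of_dvd (Pol.monic ha).1 ⟨b, h⟩
        rwa [← c1, ← (Pol.monic ha).2, ← this]) (fun h => ht (by
          have := h.mul (m - k)
          rw [Nat.add_sub_cancel' c4.le] at this
          refine this.mono fun q hq => ?_
          obtain ⟨a, ha, b, hb, h⟩ := split hT hq
          exact ⟨a, ha, b, (Pol.monic hb).1, (Pol.monic hb).2.trans c2, h⟩)) a ha
      have i2 := ih _ (by omega) _ c2 _ (fun c => by
        obtain ⟨a, -, b, hb, h⟩ := split hT (hc c)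
        have := eq_pow_of_dvd (Pol.monic hb).1 ⟨a, h.trans (mul_comm _ _)⟩
        rwa [← c2, ← (Pol.monic hb).2, ← this]) (fun h => ht (by
          have := h.mul k
          rw [Nat.sub_add_cancel c4.le] at this
          refine this.mono fun q hq => ?_
          obtain ⟨a, ha, b, hb, h⟩ := split hT hq
          exact ⟨b, hb, a, (Pol.monic ha).1, (Pol.monic ha).2.trans c1,
            h.trans (mul_comm _ _)⟩)) b hb
      have := nz_split Z T
      rw [roots_mul (Pol.monic hp).1.ne_zero, Multiset.card_add]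
      omega

theorem lower_bound {n : ℕ} {Z : Fin n → Fin n → Bool}
    (h : ∀ p : ℝ[X], p.Monic → p.natDegree = n → p ∈ Pol Z) : 11 * n ≤ 6 * nz Z + n % 2 := by
  have hq : (X ^ (n % 2) * quad 0 1 ^ (n / 2) : ℝ[X]).Monic :=
    (monic_X_pow _).mul ((quad_monic 0 1).pow _)
  have h1 := lower n (Fin n) (Fintype.card_fin n) Z
    (fun c => h _ ((monic_X_sub_C c).pow n) (by simp))
    (fun ht => not_thin n (ht.mono fun p hp => h p hp.1 hp.2)) _ (h _ hq (by
      rw [(monic_X_pow _).natDegree_mul ((quad_monic 0 1).pow _), natDegree_X_pow,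
        (quad_monic 0 1).natDegree_pow, quad_natDegree]
      omega))
  have h2 : (quad 0 1).roots = 0 := by
    refine Multiset.eq_zero_of_forall_notMem fun x hx => ?_
    have := (mem_roots (quad_monic 0 1).ne_zero).1 hx
    rw [IsRoot, eval_quad] at this
    nlinarith [sq_nonneg x]
  rw [roots_mul hq.ne_zero, roots_pow, roots_pow, h2, roots_X] at h1
  simpa using h1

end Pool.Agent.P.MP_417dd2_co.H
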