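import Pool.Agent.P.MP_417dd2_co.Blocks

/-!
Dimension count: an irreducible pattern of order `m` with fewer than `2 m - 1` nonzero entries
realises only a thin family of polynomials.
-/

open Polynomial Finset

namespace Pool.Agent.P.MP_417dd2_co.H

/-- The characteristic polynomials of the realisations of a pattern. -/
def Pol {ι : Type} [Fintype ι] [DecidableEq ι] (Z : ι → ι → Bool) : Set ℝ[X] :=
  {p | ∃ A : Matrix ι ι ℝ, (∀ i j, (A i j ≠ 0 ↔ Z i j = true)) ∧ A.charpoly = p}

/-- The number of nonzero entries. -/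
def nz {ι : Type} [Fintype ι] (Z : ι → ι → Bool) : ℕ :=
  (univ.filter fun q : ι × ι => Z q.1 q.2 = true).card

/-- Strong connectivity. -/
def Irr {ι : Type} [Fintype ι] (Z : ι → ι → Bool) : Prop :=
  ∀ T : Finset ι, T.Nonempty → T ≠ univ → ∃ i, i ∉ T ∧ ∃ j, j ∈ T ∧ Z i j = true

/-- A family of polynomials smoothly parametrised by fewer than `m` real numbers. -/
def Thin (S : Set ℝ[X]) (m : ℕ) : Prop :=
  ∃ (κ : Type) (_ : Fintype κ) (F : (κ → ℝ) → ℝ → ℝ), Fintype.card κ < m ∧
    (∀ t, ContDiff ℝ 1 fun x => F x t) ∧ ∀ p ∈ S, ∃ x, ∀ t, p.eval t = F x t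

lemma Thin.mono {S S' : Set ℝ[X]} {m : ℕ} (h : Thin S m) (hs : S' ⊆ S) : Thin S' m := by
  obtain ⟨κ, _, F, h1, h2, h3⟩ := h
  exact ⟨κ, inferInstance, F, h1, h2, fun p hp => h3 p (hs hp)⟩

lemma not_thin (n : ℕ) : ¬ Thin {p | p.Monic ∧ p.natDegree = n} n := by
  rintro ⟨κ, _, F, h1, h2, h3⟩
  have hG : ContDiff ℝ 1 fun (x : κ → ℝ) (i : Fin n) => F x (i : ℕ) :=
    contDiff_pi.2 fun i => h2 _
  have hd := hG.dense_compl_range_of_finrank_lt_finrank (by simpa using h1)
  obtain ⟨y, hy⟩ := hd.nonempty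
  apply hy
  have hinj : Set.InjOn (fun i : Fin n => ((i : ℕ) : ℝ)) (univ : Finset (Fin n)) := by
    intro i _ j _ h
    exact Fin.ext (by simpa using h)
  set r := Lagrange.interpolate (univ : Finset (Fin n)) (fun i : Fin n => ((i : ℕ) : ℝ))
    (fun i => y i - ((i : ℕ) : ℝ) ^ n) with hr
  have hdeg : r.degree < (X ^ n : ℝ[X]).degree := by
    have := Lagrange.degree_interpolate_lt (r := fun i : Fin n => y i - ((i : ℕ) : ℝ) ^ n) hinj
    rwa [card_univ, Fintype.card_fin, ← degree_X_pow (R := ℝ)] at this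
  obtain ⟨x, hx⟩ := h3 (X ^ n + r) ⟨(monic_X_pow n).add_of_left hdeg, by
    rw [natDegree_add_eq_left_of_degree_lt hdeg, natDegree_X_pow]⟩
  refine ⟨x, funext fun i => ?_⟩
  simp only
  rw [← hx, eval_add, hr, Lagrange.eval_interpolate_at_node _ hinj (mem_univ i)]
  simp

lemma Thin.mul {S : Set ℝ[X]} {m : ℕ} (h : Thin S m) (l : ℕ) :
    Thin {p | ∃ a ∈ S, ∃ b : ℝ[X], b.Monic ∧ b.natDegree = l ∧ p = a * b} (m + l) := by
  obtain ⟨κ, _, F, h1, h2, h3⟩ := h
  refine ⟨κ ⊕ Fin l, inferInstance,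
    fun x t => F (fun k => x (Sum.inl k)) t * (t ^ l + ∑ i : Fin l, x (Sum.inr i) * t ^ (i : ℕ)),
    by simpa using h1, fun t => ?_, ?_⟩
  · refine ContDiff.mul ((h2 t).comp (contDiff_pi.2 fun k => contDiff_apply ℝ ℝ _)) ?_
    exact contDiff_const.add (ContDiff.sum fun i _ => (contDiff_apply ℝ ℝ _).mul contDiff_const)
  · rintro p ⟨a, ha, b, hb, rfl, rfl⟩
    obtain ⟨x, hx⟩ := h3 a ha
    refine ⟨Sum.elim x fun i => b.coeff i, fun t => ?_⟩
    simp only [Sum.elim_inl, Sum.elim_inr, eval_mul, hx]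
    congr 1
    conv_lhs => rw [hb.as_sum]
    rw [Fin.sum_univ_eq_sum_range (fun i => b.coeff i * t ^ i)]
    simp [eval_finsetSum]

/-- Arcs of a spanning tree can be normalised to one by a diagonal similarity. -/
lemma exists_tree {ι : Type} [Fintype ι] [DecidableEq ι] {Z : ι → ι → Bool} (hZ : Irr Z) (v : ι) :
    ∀ k, k + 1 ≤ Fintype.card ι → ∃ (T : Finset ι) (F : Finset (ι × ι)), T.card = k + 1 ∧
      F.card = k ∧ (∀ q ∈ F, q.1 ∈ T ∧ q.2 ∈ T ∧ Z q.1 q.2 = true) ∧
      ∀ A : Matrix ι ι ℝ, (∀ i j, (A i j ≠ 0 ↔ Z i j = true)) →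
        ∃ d : ι → ℝ, (∀ i, d i ≠ 0) ∧ ∀ q ∈ F, d q.1 * A q.1 q.2 = d q.2 := by
  intro k
  induction k with
  | zero =>
    intro _
    exact ⟨{v}, ∅, by simp, by simp, by simp, fun A _ => ⟨fun _ => 1, by simp, by simp⟩⟩
  | succ k ih =>
    intro hk
    obtain ⟨T, F, h1, h2, h3, h4⟩ := ih (by omega)
    obtain ⟨i, hi, j, hj, hij⟩ := hZ T (card_pos.1 (by omega)) (by
      rintro rfl
      rw [card_univ] at h1
      omega)
    have hF : (i, j) ∉ F := fun h => hi (h3 _ h).1
    refine ⟨insert i T, insert (i, j) F, by rw [card_insert_of_notMem hi, h1],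
      by rw [card_insert_of_notMem hF, h2], ?_, fun A hA => ?_⟩
    · intro q hq
      rcases mem_insert.1 hq with rfl | hq
      · exact ⟨mem_insert_self _ _, mem_insert_of_mem hj, hij⟩
      · exact ⟨mem_insert_of_mem (h3 q hq).1, mem_insert_of_mem (h3 q hq).2.1, (h3 q hq).2.2⟩
    · obtain ⟨d, hd, hd'⟩ := h4 A hA
      have hA0 : A i j ≠ 0 := (hA i j).2 hij
      have hne : ∀ a ∈ T, a ≠ i := fun a ha h => hi (h ▸ ha)
      refine ⟨Function.update d i (d j / A i j), fun a => ?_, fun q hq => ?_⟩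
      · by_cases h : a = i
        · rw [h, Function.update_self]
          exact div_ne_zero (hd j) hA0
        · rw [Function.update_of_ne h]
          exact hd a
      · rcases mem_insert.1 hq with rfl | hq
        · simp only [Function.update_self, Function.update_of_ne (hne j hj)]
          field_simp
        · rw [Function.update_of_ne (hne _ (h3 q hq).1), Function.update_of_ne (hne _ (h3 q hq).2.1)]
          exact hd' q hq

lemma thin_irr {ι : Type} [Fintype ι] [DecidableEq ι] {Z : ι → ι → Bool} (hZ : Irr Z)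
    (h0 : 0 < Fintype.card ι) (h : nz Z + 1 < 2 * Fintype.card ι) :
    Thin (Pol Z) (Fintype.card ι) := by
  obtain ⟨v⟩ := Fintype.card_pos_iff.1 h0
  obtain ⟨T, F, -, h2, h3, h4⟩ := exists_tree hZ v (Fintype.card ι - 1) (by omega)
  set U := (univ.filter fun q : ι × ι => Z q.1 q.2 = true) \ F with hU
  have hFs : F ⊆ univ.filter fun q : ι × ι => Z q.1 q.2 = true := fun q hq =>
    mem_filter.2 ⟨mem_univ _, (h3 q hq).2.2⟩
  have hc : U.card + F.card = nz Z := card_sdiff_add_card_eq_card hFs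
  let M : (U → ℝ) → Matrix ι ι ℝ := fun x i j =>
    if h : (i, j) ∈ U then x ⟨(i, j), h⟩ else if (i, j) ∈ F then 1 else 0
  refine ⟨U, inferInstance, fun x t => (Matrix.scalar ι t - M x).det, ?_, fun t => ?_, ?_⟩
  · rw [Fintype.card_coe]
    omega
  · simp only [Matrix.det_apply']
    refine ContDiff.sum fun σ _ => contDiff_const.mul (contDiff_prod fun i _ => ?_)
    simp only [M]
    refine contDiff_const.sub ?_
    by_cases h : (σ i, i) ∈ U
    · simp only [h, dif_pos]
      exact contDiff_apply ℝ ℝ _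
    · simp only [h, dif_neg, not_false_eq_true]
      exact contDiff_const
  · rintro p ⟨A, hA, rfl⟩
    obtain ⟨d, hd, hd'⟩ := h4 A hA
    refine ⟨fun q => d q.1.1 * A q.1.1 q.1.2 / d q.1.2, fun t => ?_⟩
    have hM : ∀ i j, M (fun q => d q.1.1 * A q.1.1 q.1.2 / d q.1.2) i j = d i * A i j / d j := by
      intro i j
      simp only [M]
      split_ifs with a b
      · rfl
      · rw [hd' _ b, div_self (hd j)]
      · have : A i j = 0 := by
          by_contra h5
          exact a (mem_sdiff.2 ⟨mem_filter.2 ⟨mem_univ _, (hA i j).1 h5⟩, b⟩)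
        simp [this]
    have e : Matrix.scalar ι t - M (fun q => d q.1.1 * A q.1.1 q.1.2 / d q.1.2) =
        Matrix.of fun i j => d i * (Matrix.of fun i j => (d j)⁻¹ *
          (Matrix.scalar ι t - A) i j) i j := by
      ext i j
      have := hd j
      simp only [Matrix.sub_apply, hM, Matrix.of_apply, Matrix.scalar_apply, Matrix.diagonal_apply]
      split_ifs with h
      · subst h
        field_simp
      · field_simp
        ring
    simp only
    rw [Matrix.eval_charpoly, e, Matrix.det_mul_column, Matrix.det_mul_row, ← mul_assoc,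
      ← prod_mul_distrib, prod_eq_one fun i _ => mul_inv_cancel₀ (hd i), one_mul]

end Pool.Agent.P.MP_417dd2_co.H
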