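import Pool.Agent.P.MP_417dd2_co.H.Low

/-! Direct sums with about `11 n / 6` nonzero entries. -/

open Polynomial Finset

namespace Pool.Agent.P.MP_417dd2_co.H

lemma nz_dsum {m n : ℕ} (Z : Matrix (Fin m) (Fin m) Bool) (W : Matrix (Fin n) (Fin n) Bool) :
    nz (dsum Z W) = nz Z + nz W := by
  rw [nz_eq, nz_eq, nz_eq]
  simp only [Fin.sum_univ_add]
  simp [dsum, -sum_boole]

lemma red_dsum {m n : ℕ} (hm : 0 < m) (hn : 0 < n) (Z : Matrix (Fin m) (Fin m) Bool)
    (W : Matrix (Fin n) (Fin n) Bool) : ∃ T : Finset (Fin (m + n)), T.Nonempty ∧ T ≠ univ ∧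
      ∀ i, i ∉ T → ∀ j, j ∈ T → dsum Z W i j = false := by
  refine ⟨univ.map (Fin.castAddEmb n), ⟨_, mem_map_of_mem _ (mem_univ ⟨0, hm⟩)⟩, fun h => ?_,
    fun i hi j hj => ?_⟩
  · have := congrArg card h
    simp at this
    omega
  · obtain ⟨j, -, rfl⟩ := mem_map.1 hj
    induction i using Fin.addCases with
    | left i => exact absurd (by simp) hi
    | right i => simp [dsum]

/-- A pattern of order three with six nonzero entries. -/
def T3 : Matrix (Fin 3) (Fin 3) Bool :=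
  !![true, true, false; true, false, true; true, false, true]

lemma realizes_T3 {p : ℝ[X]} (hp : p.Monic) (h : p.natDegree = 3) : Realizes T3 p := by
  set k1 := p.coeff 2
  set k2 := p.coeff 1
  set k3 := p.coeff 0
  obtain ⟨d, h1, h2, h3, h4⟩ : ∃ d : ℝ, d ≠ 0 ∧ -k1 - d ≠ 0 ∧ (-k1 - d) * d - k2 ≠ 0 ∧
      ((-k1 - d) * d - k2) * d - k3 ≠ 0 := by
    have a1 := neg_abs_le k1
    have a2 := neg_abs_le k2
    have a3 := neg_abs_le k3
    have b1 := abs_nonneg k1
    have b2 := abs_nonneg k2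
    have b3 := abs_nonneg k3
    set d := |k1| + |k2| + |k3| + 2 with hd
    have c : (-k1 - d) * d - k2 ≤ -(|k3| + 1) := by nlinarith
    exact ⟨d, by linarith, by linarith, by linarith, by nlinarith⟩
  refine ⟨!![-k1 - d, 1, 0; (-k1 - d) * d - k2, 0, 1; ((-k1 - d) * d - k2) * d - k3, 0, d],
    fun i j => ?_, Polynomial.funext fun x => ?_⟩
  · fin_cases i <;> fin_cases j <;> simp [T3, h1, h2, h3, h4]
  · rw [Matrix.eval_charpoly, Matrix.det_fin_three]
    conv_rhs => rw [hp.as_sum, h]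
    simp [sum_range_succ]
    ring

lemma exists_quads (k : ℕ) : ∀ (n : ℕ) (p : ℝ[X]), 2 ≤ n → p.Monic → p.natDegree = 2 * k + n →
    ∃ (M : Multiset (ℝ × ℝ)) (q : ℝ[X]), M.card = k ∧ (∀ u ∈ M, 0 < u.2 ∨ u.1 = 0) ∧
      p = (M.map fun u => quad u.1 u.2).prod * q := by
  induction k with
  | zero => exact fun n p _ _ _ => ⟨0, p, rfl, by simp, by simp⟩
  | succ k ih =>
    intro n p hn hp h
    obtain ⟨a, b, q, hab, hq, hqd, rfl⟩ :=
      exists_quad_mul (n := 2 * k + n) hp (by omega) (by omega)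
    obtain ⟨M, r, hM, hM', rfl⟩ := ih n q hn hq hqd
    refine ⟨(a, b) ::ₘ M, r, by simp [hM], ?_, by simp [mul_assoc]⟩
    intro u hu
    rcases Multiset.mem_cons.mp hu with rfl | hu
    · exact hab
    · exact hM' u hu

lemma exists_sextic {m : ℕ} (hm : 10 ≤ m) {p : ℝ[X]} (hp : p.Monic) (h : p.natDegree = 6 + m) :
    ∃ a b : ℝ[X], Realizes S6 a ∧ b.Monic ∧ b.natDegree = m ∧ p = a * b := by
  obtain ⟨M, q, hM, hM', e⟩ := exists_quads 7 (m - 8) p (by omega) hp (by omega)
  obtain ⟨u, v, w, N, rfl, huv, huw⟩ := exists_three M hM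
  have hg := good_of_same (hM' u (by simp)) (hM' v (by simp)) (hM' w (by simp)) huv huw
  have ha : (quad u.1 u.2 * quad v.1 v.2 * quad w.1 w.2).Monic :=
    ((quad_monic _ _).mul (quad_monic _ _)).mul (quad_monic _ _)
  have e' : p = quad u.1 u.2 * quad v.1 v.2 * quad w.1 w.2 *
      ((N.map fun u => quad u.1 u.2).prod * q) := by
    rw [e]
    simp only [Multiset.insert_eq_cons, Multiset.map_add, Multiset.map_cons,
      Multiset.map_singleton, Multiset.prod_add, Multiset.prod_cons, Multiset.prod_singleton]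
    ring
  have hb := ha.of_mul_monic_left (e' ▸ hp)
  refine ⟨_, _, realizes_S6 hg, hb, ?_, e'⟩
  rw [e', ha.natDegree_mul hb, ((quad_monic _ _).mul (quad_monic _ _)).natDegree_mul
    (quad_monic _ _), (quad_monic _ _).natDegree_mul (quad_monic _ _)] at h
  simp only [quad_natDegree] at h
  omega

theorem upper : ∀ n : ℕ, 2 ≤ n → ∃ Z : Matrix (Fin n) (Fin n) Bool,
    (∀ p : ℝ[X], p.Monic → p.natDegree = n → Realizes Z p) ∧ nz Z + (n - 10) / 6 = 2 * n ∧
    (4 ≤ n → ∃ T : Finset (Fin n), T.Nonempty ∧ T ≠ univ ∧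
      ∀ i, i ∉ T → ∀ j, j ∈ T → Z i j = false) := by
  intro n
  induction n using Nat.strong_induction_on with
  | _ n ih =>
    intro hn
    by_cases h16 : 16 ≤ n
    · obtain ⟨m, rfl⟩ : ∃ m, n = 6 + m := ⟨n - 6, by omega⟩
      obtain ⟨W, h1, h2, -⟩ := ih m (by omega) (by omega)
      refine ⟨dsum S6 W, fun p hp h => ?_, ?_, fun _ => red_dsum (by omega) (by omega) _ _⟩
      · obtain ⟨a, b, ha, hb, hb', rfl⟩ := exists_sextic (by omega) hp h
        exact ha.dsum (h1 b hb hb')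
      · have : nz S6 = 11 := by decide +kernel
        rw [nz_dsum]
        omega
    have t2 : nz T2 = 4 := by decide +kernel
    by_cases h4 : 4 ≤ n
    · obtain ⟨m, rfl⟩ : ∃ m, n = 2 + m := ⟨n - 2, by omega⟩
      obtain ⟨W, h1, h2, -⟩ := ih m (by omega) (by omega)
      refine ⟨dsum T2 W, fun p hp h => ?_, ?_, fun _ => red_dsum (by omega) (by omega) _ _⟩
      · obtain ⟨a, b, q, -, hq, hq', rfl⟩ := exists_quad_mul (n := m) hp (by omega) (by omega)
        exact (realizes_T2 a b).dsum (h1 q hq hq')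
      · rw [nz_dsum]
        omega
    obtain rfl | rfl : n = 2 ∨ n = 3 := by omega
    · refine ⟨T2, fun p hp h => ?_, by omega, by omega⟩
      obtain ⟨a, b, rfl⟩ := eq_quad hp h
      exact realizes_T2 a b
    · exact ⟨T3, fun p => realizes_T3, by decide +kernel, by omega⟩

end Pool.Agent.P.MP_417dd2_co.H
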